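import Pool.Agent.helper9.TH.Spec

namespace Pool.Agent.helper31.TH

open Pool.Agent.helper9.TH

universe u

theorem CQ : CQ_stmt.{u} := by
  intro G Q _ _ _ _ f a hf
  let S : Subgroup G := (Subgroup.centralizer {f a}).comap f
  let C : Subgroup G := Subgroup.centralizer {a}
  have hS : Nat.card S = Nat.card (Subgroup.centralizer {f a}) * Nat.card f.ker := by
    have h1 : S.index = (Subgroup.centralizer {f a}).index :=
      Subgroup.index_comap_of_surjective _ hf
    have h2 : Nat.card S * S.index = Nat.card G := Subgroup.card_mul_index S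
    have h3 : Nat.card (Subgroup.centralizer {f a}) * (Subgroup.centralizer {f a}).index = Nat.card Q :=
      Subgroup.card_mul_index _
    have h4 : Nat.card f.ker * f.ker.index = Nat.card G := Subgroup.card_mul_index _
    have h5 : f.ker.index = Nat.card Q := by
      rw [Subgroup.index_ker, MonoidHom.range_eq_top.2 hf]; exact Subgroup.card_top
    have h6 : 0 < (Subgroup.centralizer {f a}).index :=
      Nat.pos_of_ne_zero Subgroup.FiniteIndex.index_ne_zero
    rw [h1] at h2
    rw [h5, ← h3, ← h2] at h4
    have : Nat.card S * (Subgroup.centralizer {f a}).index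
        = (Nat.card (Subgroup.centralizer {f a}) * Nat.card f.ker) * (Subgroup.centralizer {f a}).index := by
      rw [← h4]; ring
    exact Nat.eq_of_mul_eq_mul_right h6 this
  let φ : S → G := fun g => g.1 * a * g.1⁻¹
  have hφ : ∀ g, f (φ g) = f a := by
    intro g
    have hg : f g.1 ∈ Subgroup.centralizer {f a} := g.2
    rw [Subgroup.mem_centralizer_singleton_iff] at hg
    simp only [φ, map_mul, map_inv]
    rw [hg]; group
  have key : Nat.card S ≤ Nat.card C * Nat.card (Set.range φ) := by
    rw [← Nat.card_prod]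
    choose s hs using fun y : Set.range φ => y.2
    have hmem : ∀ g : S, (s ⟨φ g, g, rfl⟩).1⁻¹ * g.1 ∈ C := by
      intro g
      have h : φ (s ⟨φ g, g, rfl⟩) = φ g := hs _
      rw [Subgroup.mem_centralizer_singleton_iff]
      simp only [φ] at h
      generalize (s _).1 = t at h ⊢
      have h' : a * t⁻¹ * g.1 = t⁻¹ * g.1 * a := by
        have := congrArg (fun z => t⁻¹ * z * g.1) h
        simp only [mul_assoc] at this
        simpa [mul_assoc] using this
      rw [← h', mul_assoc]
    apply Nat.card_le_card_of_injective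
      (fun g : S => ((⟨(s ⟨φ g, g, rfl⟩).1⁻¹ * g.1, hmem g⟩ : C), (⟨φ g, g, rfl⟩ : Set.range φ)))
    intro g h hgh
    simp only [Prod.mk.injEq, Subtype.mk.injEq] at hgh
    obtain ⟨h1, h2⟩ := hgh
    have h3 : (⟨φ g, g, rfl⟩ : Set.range φ) = ⟨φ h, h, rfl⟩ := Subtype.ext h2
    rw [h3] at h1
    exact Subtype.ext (mul_left_cancel h1)
  have hT : ({x | f x = f a} : Set G).ncard = Nat.card f.ker := by
    have : ({x | f x = f a} : Set G) = (fun x => a * x) '' (f.ker : Set G) := by
      ext x
      simp only [Set.mem_ofPred_eq, Set.mem_image, SetLike.mem_coe, MonoidHom.mem_ker]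
      constructor
      · intro hx
        refine ⟨a⁻¹ * x, ?_, by group⟩
        rw [map_mul, map_inv, hx, inv_mul_cancel]
      · rintro ⟨y, hy, rfl⟩
        rw [map_mul, hy, mul_one]
    rw [this, Set.ncard_image_of_injective _ (mul_right_injective a)]
    rfl
  have hsub : Set.range φ ⊆ {x | f x = f a} := by
    rintro _ ⟨g, rfl⟩
    exact hφ g
  have hK : 0 < Nat.card f.ker := Nat.card_pos
  have hC : 0 < Nat.card C := Nat.card_pos
  constructor
  · have h1 : Nat.card (Set.range φ) ≤ Nat.card f.ker := by
      rw [← hT]; exact Set.ncard_le_ncard hsub (Set.toFinite _)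
    have h2 : Nat.card (Subgroup.centralizer {f a}) * Nat.card f.ker ≤ Nat.card C * Nat.card f.ker := by
      rw [← hS]; exact key.trans (Nat.mul_le_mul_left _ h1)
    exact Nat.le_of_mul_le_mul_right h2 hK
  · intro hle x hx
    by_contra hcon
    have hnot : x ∉ Set.range φ := by
      rintro ⟨g, hg⟩
      exact hcon ⟨g.1, hg.symm⟩
    have h1 : Nat.card (Set.range φ) < Nat.card f.ker := by
      rw [← hT]
      exact Set.ncard_lt_ncard ((Set.ssubset_iff_of_subset hsub).2 ⟨x, hx, hnot⟩) (Set.toFinite _)
    have h2 : Nat.card C * Nat.card (Set.range φ) < Nat.card C * Nat.card f.ker :=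
      Nat.mul_lt_mul_of_pos_left h1 hC
    have h3 : Nat.card C * Nat.card f.ker ≤ Nat.card (Subgroup.centralizer {f a}) * Nat.card f.ker :=
      Nat.mul_le_mul_right _ hle
    rw [← hS] at h3
    omega

end Pool.Agent.helper31.TH
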